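import Pool.Agent.Helper65.CL.SieveGThree
import Pool.Agent.Helper65.CL.StepD
import Pool.Agent.Helper65.CL.TriE

/-!
# CB for symbols of prime degrees: the claim for degree three
-/

set_option autoImplicit false

namespace Pool.Agent.Helper65.CL

/-- the claim E for polynomials of degree at most three in the last variable -/
theorem triClaim_three (Λ : Finset ℕ) (hΛ : ∀ l ∈ Λ, l.Prime) (K : Type) [Field K]
    [NumberField K] (n A Dg J0 : ℕ) : ∃ J, J0 ≤ J ∧ TriClaim K Λ J 3 A Dg n := by
  obtain ⟨J, h1, h2⟩ := stepD_of_sieve K (fun l hl => (hΛ l hl).two_le) (sieveG_three Λ hΛ K)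
    A Dg J0
  exact ⟨J, h1, triClaim h2 n⟩

end Pool.Agent.Helper65.CL
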