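import Pool.Agent.Helper65.CL.Defs
import Pool.Agent.Helper65.CB.HSF
import Pool.Agent.Helper56.CB.TriF
import Pool.Agent.Helper16.CB.Alg
import Pool.Agent.Helper18.CL.AlgL
import Pool.Agent.Helper17.CL.NmIff
import Pool.Agent.Helper94.CL.Comp

/-!
# CB for symbols of prime degrees: the algebra side for families
-/

set_option autoImplicit false

namespace Pool.Agent.Helper65.CL

open NumberField Polynomial Pool.Agent.Helper4.CB Pool.Agent.Helper69.CB Pool.Agent.Helper18.CL

/-- **ALG** in the form with tame symbols: one finite extension for all pairs whose tame symbols at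
the bad places are `l`-th powers -/
def AlgStmtU (K : Type) [Field K] [NumberField K] (l J : ℕ) : Prop :=
  ∃ (L : Type) (_ : Field L) (_ : Algebra K L), FiniteDimensional K L ∧
    (∃ ζ : L, IsPrimitiveRoot ζ l) ∧
    ∀ a b : K, a ≠ 0 → b ≠ 0 → (∀ p : Pl K, BadL l J p → LocU l p a b) →
      IsNm l (algebraMap K L a) (algebraMap K L b)

/-- the case `l = 2` -/
theorem algU_two (K : Type) [Field K] [NumberField K] (J : ℕ) : AlgStmtU K 2 J := by
  obtain ⟨L, iL, iA, hfin, hL⟩ := Pool.Agent.Helper65.CB.solve K J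
    (Pool.Agent.Helper16.CB.algebraic_block K J)
  have hch : CharZero L := charZero_of_injective_algebraMap (algebraMap K L).injective
  refine ⟨L, iL, iA, hfin, ⟨-1, ?_⟩, fun a b ha hb h => ?_⟩
  · exact IsPrimitiveRoot.neg_one 0 (by norm_num)
  · have hHS : Pool.Agent.Helper65.CB.HS K J a b := by
      have h1 := Pool.Agent.Helper56.CB.hs_of_point (K := K) (n := 0) (J := J)
        (a := MvPolynomial.C a) (b := MvPolynomial.C b) (t := fun i => i.elim0)
        (by simpa using ha) (by simpa using hb) (by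
          intro p hp
          obtain ⟨z, a1, b1, g, k, e, f, h1, h2, h3, h4, h5, h6⟩ := h p hp
          refine ⟨z, a1, b1, g, k, e, f, ?_, ?_, h3, h4, h5, ?_⟩
          · rw [MvPolynomial.eval_C]; exact h1
          · rw [MvPolynomial.eval_C]; exact h2
          · have h7 : (2 - 1) * e = e := by norm_num
            rw [h7] at h6
            exact h6)
      simpa using h1
    obtain ⟨-, -, X₀, Y₀, hXY⟩ := hL a b hHS
    have : NeZero (2 : ℕ) := ⟨two_ne_zero⟩
    rw [Pool.Agent.Helper17.CL.isNm_iff]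
    refine ⟨![X₀, Y₀], ?_⟩
    rw [← hXY]
    unfold nf
    rw [Matrix.det_fin_two]
    simp
    ring

/-- units satisfy the local condition -/
theorem LocU.of_units {K : Type} [Field K] [NumberField K] {l : ℕ} {p : Pl K} {a b : K}
    (ha : vl p a = 1) (hb : vl p b = 1) : LocU l p a b :=
  ⟨1, a, b, 1, 1, 0, 0, by simp, by simp, ha, hb, map_one _, by simp⟩

/-- **ALG for a family**: `W l` says that the form with tame symbols is available -/
theorem alg_fam (K : Type) [Field K] [NumberField K] {r : ℕ} (l : Fin r → ℕ)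
    (hl : ∀ i, (l i).Prime) (J : ℕ) (hJ : 2 ≤ J) (W : ℕ → Prop)
    (hW : ∀ i, W (l i) → AlgStmtU K (l i) J) :
    ∃ (L : Type) (_ : Field L) (_ : Algebra K L), FiniteDimensional K L ∧
      ∀ i, (∃ ζ : L, IsPrimitiveRoot ζ (l i)) ∧ ∀ a b : K, a ≠ 0 → b ≠ 0 →
        (∀ p : Pl K, BadL (l i) J p → LocU (l i) p a b ∧
          (W (l i) ∨ (p.valuation K a = 1 ∧ p.valuation K b = 1))) →
        IsNm (l i) (algebraMap K L a) (algebraMap K L b) := by
  refine Pool.Agent.Helper94.CL.exists_comp_of K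
    (fun i L _ _ => (∃ ζ : L, IsPrimitiveRoot ζ (l i)) ∧ ∀ a b : K, a ≠ 0 → b ≠ 0 →
        (∀ p : Pl K, BadL (l i) J p → LocU (l i) p a b ∧
          (W (l i) ∨ (p.valuation K a = 1 ∧ p.valuation K b = 1))) →
        IsNm (l i) (algebraMap K L a) (algebraMap K L b)) ?_ ?_
  · intro i
    by_cases hWi : W (l i)
    · obtain ⟨L, iL, iA, h1, h2, h3⟩ := hW i hWi
      exact ⟨L, iL, iA, h1, h2, fun a b ha hb h => h3 a b ha hb (fun p hp => (h p hp).1)⟩
    · obtain ⟨L, iL, iA, h1, h2, h3⟩ := algL K (l i) J (hl i) hJ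
      exact ⟨L, iL, iA, h1, h2, fun a b ha hb h => h3 a b ha hb
        (fun p hp => ((h p hp).2).resolve_left hWi)⟩
  · intro i L M _ _ _ _ f ⟨⟨ζ, hζ⟩, hL⟩
    refine ⟨⟨f ζ, hζ.map_of_injective f.toRingHom.injective⟩, fun a b ha hb hp => ?_⟩
    let _ : Algebra L M := f.toRingHom.toAlgebra
    have h1 := Pool.Agent.Helper14.CL.isNm_map (E := M) (hl i).ne_zero (hL a b ha hb hp)
    have h2 : ∀ x : K, algebraMap L M (algebraMap K L x) = algebraMap K M x := fun x => f.commutes x
    rwa [h2, h2] at h1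

end Pool.Agent.Helper65.CL
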