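import Pool.Agent.Helper65.CL.Defs
import Pool.Agent.Helper4.CB.BAD

/-!
# CB for symbols of prime degrees: the bad places are rare
-/

set_option autoImplicit false

namespace Pool.Agent.Helper65.CL

open NumberField Ideal Pool.Agent.Helper4.CB Pool.Agent.Helper92.CB

/-- Uniform version: no threshold. -/
theorem rare_log_unif (K : Type) [Field K] [NumberField K] (l : ℕ) (hp : l.Prime) (ε : ℝ)
    (hε : 0 < ε) :
    ∃ J0 : ℕ, ∀ J : ℕ, J0 ≤ J → ∀ x : ℝ, 1 ≤ x →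
      ∀ S : Finset (Ideal (𝓞 K)),
      (∀ P ∈ S, P.IsPrime ∧ P ≠ ⊥ ∧ absNorm P ≡ 1 [MOD l ^ J] ∧ (absNorm P : ℝ) ≤ x) →
      ∑ P ∈ S, Real.log (absNorm P) / absNorm P ≤ ε * Real.log x := by
  classical
  have hl := hp.two_le
  set n : ℝ := (Module.finrank ℚ K : ℝ) with hn
  have hn0 : 0 ≤ n := Nat.cast_nonneg _
  obtain ⟨J0, hJ0⟩ := exists_nat_gt (4 * n * Real.exp 1 / ε + 1)
  have hq0 : NeZero (l ^ (J0 + 1) : ℕ) := ⟨pow_ne_zero _ (by omega)⟩
  obtain ⟨C, hC0, hC⟩ := sumK_log_le K (l ^ (J0 + 1))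
  have htot : (2 : ℝ) ^ J0 ≤ ((Nat.totient (l ^ (J0 + 1)) : ℕ) : ℝ) := by
    have h1 : l ^ J0 ∣ Nat.totient (l ^ (J0 + 1)) := by
      rw [Nat.totient_prime_pow_succ hp]
      exact Dvd.intro _ rfl
    have h2 : 0 < Nat.totient (l ^ (J0 + 1)) := Nat.totient_pos.2 (pow_pos (by omega) _)
    have h3 : 2 ^ J0 ≤ Nat.totient (l ^ (J0 + 1)) :=
      (Nat.pow_le_pow_left hl J0).trans (Nat.le_of_dvd h2 h1)
    exact_mod_cast h3
  have hbig : 4 * n * Real.exp 1 / ε < 2 ^ J0 := by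
    have h1 : (J0 : ℝ) ≤ 2 ^ J0 := by
      have h2 : J0 ≤ 2 ^ J0 := Nat.lt_two_pow_self.le
      exact_mod_cast h2
    linarith
  have hcoef : n * Real.exp 1 / (Nat.totient (l ^ (J0 + 1)) : ℕ) ≤ ε / 2 := by
    rw [div_le_iff₀ (lt_of_lt_of_le (by positivity) htot)]
    rw [div_lt_iff₀ hε] at hbig
    have h3 : 0 ≤ n * Real.exp 1 := by positivity
    nlinarith
  obtain ⟨J1, hJ1⟩ := exists_nat_gt (4 * C / ε + 2)
  refine ⟨max (J0 + 1) J1, fun J hJ x hx S hS => ?_⟩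
  have hJa : J0 + 1 ≤ J := (le_max_left _ _).trans hJ
  have hJb : J1 ≤ J := (le_max_right _ _).trans hJ
  rcases Finset.eq_empty_or_nonempty S with h | ⟨P0, hP0⟩
  · rw [h, Finset.sum_empty]
    exact mul_nonneg hε.le (Real.log_nonneg hx)
  have hx1 : (2 : ℝ) ^ J < x := by
    obtain ⟨h1, h2, h3, h4⟩ := hS P0 hP0
    have h5 : 2 ^ J < absNorm P0 := by
      refine lt_of_le_of_lt (Nat.pow_le_pow_left hl J) ?_
      have h6 : absNorm P0 ≠ 1 := fun h => h1.ne_top (absNorm_eq_one_iff.mp h)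
      have h7 : absNorm P0 ≠ 0 := fun h => h2 (absNorm_eq_zero_iff.mp h)
      have h8 : l ^ J ∣ absNorm P0 - 1 := (Nat.modEq_iff_dvd' (by omega)).mp h3.symm
      have := Nat.le_of_dvd (by omega) h8
      omega
    exact lt_of_lt_of_le (by exact_mod_cast h5) h4
  have hx0 : 0 < x := by linarith
  have hJ2 : (4 * C / ε + 2) < J := hJ1.trans_le (by exact_mod_cast hJb)
  have hCe : 0 ≤ 4 * C / ε := by positivity
  have hlog2 : (1 : ℝ) / 2 ≤ Real.log 2 := by
    have := Real.log_two_gt_d9; linarith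
  have hlx : J * Real.log 2 ≤ Real.log x := by
    rw [← Real.log_pow]
    exact Real.log_le_log (by positivity) hx1.le
  have hlx2 : (2 * C / ε + 1) ≤ Real.log x := by
    refine le_trans ?_ hlx
    have : (4 * C / ε + 2) * (1 / 2) ≤ J * Real.log 2 :=
      mul_le_mul hJ2.le hlog2 (by norm_num) (Nat.cast_nonneg _)
    calc 2 * C / ε + 1 = (4 * C / ε + 2) * (1 / 2) := by ring
      _ ≤ _ := this
  have hxe : Real.exp 1 ≤ x := by
    rw [← Real.le_log_iff_exp_le hx0]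
    have : 0 ≤ 2 * C / ε := by positivity
    linarith
  have hlx0 : 0 ≤ Real.log x := Real.log_nonneg hx
  have hCx : C ≤ ε / 2 * Real.log x := by
    have h1 : 2 * C / ε ≤ Real.log x := by linarith
    rw [div_le_iff₀ hε] at h1
    linarith
  have := hC x hxe S (fun P hP => ?_)
  · calc ∑ P ∈ S, Real.log (absNorm P) / absNorm P
        ≤ n * Real.exp 1 / (Nat.totient (l ^ (J0 + 1)) : ℕ) * Real.log x + C := this
      _ ≤ ε / 2 * Real.log x + ε / 2 * Real.log x :=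
          add_le_add (mul_le_mul_of_nonneg_right hcoef hlx0) hCx
      _ = ε * Real.log x := by ring
  · obtain ⟨h1, h2, h3, h5⟩ := hS P hP
    refine ⟨h1, h2, ?_, h5⟩
    have h4 : absNorm P ≡ 1 [MOD l ^ (J0 + 1)] := h3.of_dvd (pow_dvd_pow l hJa)
    have := (ZMod.natCast_eq_natCast_iff _ _ _).mpr h4
    simpa using this

open Classical in
/-- one exponent -/
theorem bad_sum_one (K : Type) [Field K] [NumberField K] (l : ℕ) (hp : l.Prime) {ε : ℝ}
    (hε : 0 < ε) :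
    ∃ J0 : ℕ, ∀ J : ℕ, J0 ≤ J → ∀ x : ℕ, 1 ≤ x →
      ∑ v ∈ (plLE K x).filter (fun v => nm v ≡ 1 [MOD l ^ J]), Real.log (nm v) / nm v ≤
        ε * Real.log x := by
  obtain ⟨J0, hJ0⟩ := rare_log_unif K l hp ε hε
  refine ⟨J0, fun J hJ x hx => ?_⟩
  have h := hJ0 J hJ (x : ℝ) (by exact_mod_cast hx)
    (((plLE K x).filter (fun v => nm v ≡ 1 [MOD l ^ J])).image (fun v : Pl K => v.asIdeal))
    (fun P hP => ?_)
  · rw [Finset.sum_image] at h
    · exact h
    · intro v _ w _ hvw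
      exact IsDedekindDomain.HeightOneSpectrum.ext hvw
  · obtain ⟨v, hv, rfl⟩ := Finset.mem_image.mp hP
    obtain ⟨hv1, hv2⟩ := Finset.mem_filter.mp hv
    exact ⟨v.isPrime, v.ne_bot, hv2, by exact_mod_cast mem_plLE.mp hv1⟩

/-- the sum of a nonnegative function over a union -/
theorem sum_biUnion_le {α β : Type*} [DecidableEq α] [DecidableEq β] (s : Finset α)
    (t : α → Finset β) (f : β → ℝ) (hf : ∀ b, 0 ≤ f b) :
    ∑ b ∈ s.biUnion t, f b ≤ ∑ a ∈ s, ∑ b ∈ t a, f b := by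
  induction s using Finset.induction_on with
  | empty => simp
  | insert a s ha ih =>
    rw [Finset.biUnion_insert, Finset.sum_insert ha]
    have h := Finset.sum_union_inter (s₁ := t a) (s₂ := s.biUnion t) (f := f)
    have h2 : 0 ≤ ∑ b ∈ t a ∩ s.biUnion t, f b := Finset.sum_nonneg (fun b _ => hf b)
    linarith

open Classical in
/-- **BAD**, finite sets of exponents -/
theorem bad_sum (K : Type) [Field K] [NumberField K] (Λ : Finset ℕ) (hΛ : ∀ l ∈ Λ, l.Prime) {ε : ℝ}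
    (hε : 0 < ε) :
    ∃ J0 : ℕ, ∀ J : ℕ, J0 ≤ J → ∀ x : ℕ, 1 ≤ x →
      ∑ v ∈ (plLE K x).filter (fun v => Bad Λ J v), Real.log (nm v) / nm v ≤
        ε * Real.log x := by
  have hδ : 0 < ε / (Λ.card + 1) := by positivity
  have hex : ∀ l : ℕ, ∃ J0 : ℕ, l ∈ Λ → ∀ J : ℕ, J0 ≤ J → ∀ x : ℕ, 1 ≤ x →
      ∑ v ∈ (plLE K x).filter (fun v => nm v ≡ 1 [MOD l ^ J]), Real.log (nm v) / nm v ≤
        ε / (Λ.card + 1) * Real.log x := by
    intro l
    by_cases hl : l ∈ Λ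
    · obtain ⟨J0, h⟩ := bad_sum_one K l (hΛ l hl) hδ
      exact ⟨J0, fun _ => h⟩
    · exact ⟨0, fun h => absurd h hl⟩
  choose J0 hJ0 using hex
  refine ⟨Λ.sup J0, fun J hJ x hx => ?_⟩
  have hsub : (plLE K x).filter (fun v => Bad Λ J v) ⊆
      Λ.biUnion (fun l => (plLE K x).filter (fun v => nm v ≡ 1 [MOD l ^ J])) := by
    intro v hv
    obtain ⟨hv1, l, hl, hv2⟩ := Finset.mem_filter.1 hv
    exact Finset.mem_biUnion.2 ⟨l, hl, Finset.mem_filter.2 ⟨hv1, hv2⟩⟩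
  have hpos : ∀ v : Pl K, 0 ≤ Real.log (nm v) / nm v := by
    intro v
    have h := two_le_nm v
    refine div_nonneg (Real.log_nonneg ?_) (Nat.cast_nonneg _)
    exact_mod_cast (by omega : 1 ≤ nm v)
  have hlog : 0 ≤ Real.log x := Real.log_nonneg (by exact_mod_cast hx)
  calc ∑ v ∈ (plLE K x).filter (fun v => Bad Λ J v), Real.log (nm v) / nm v
      ≤ ∑ v ∈ Λ.biUnion (fun l => (plLE K x).filter (fun v => nm v ≡ 1 [MOD l ^ J])),
          Real.log (nm v) / nm v :=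
        Finset.sum_le_sum_of_subset_of_nonneg hsub (fun v _ _ => hpos v)
    _ ≤ ∑ l ∈ Λ, ∑ v ∈ (plLE K x).filter (fun v => nm v ≡ 1 [MOD l ^ J]),
          Real.log (nm v) / nm v := sum_biUnion_le _ _ _ hpos
    _ ≤ ∑ l ∈ Λ, ε / (Λ.card + 1) * Real.log x :=
        Finset.sum_le_sum (fun l hl => hJ0 l hl J ((Finset.le_sup hl).trans hJ) x hx)
    _ = Λ.card * (ε / (Λ.card + 1)) * Real.log x := by
        rw [Finset.sum_const, nsmul_eq_mul, mul_assoc]
    _ ≤ ε * Real.log x := by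
        refine mul_le_mul_of_nonneg_right ?_ hlog
        rw [mul_div_assoc', div_le_iff₀ (by positivity)]
        nlinarith

end Pool.Agent.Helper65.CL
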