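import Pool.Agent.Helper65.CL.Defs
import Pool.Agent.Helper65.CL.Bad
import Pool.Agent.Helper35.CB.Glue

/-!
# CB for symbols of prime degrees: the sieve with an arbitrary scaling, degree at most two
-/

set_option autoImplicit false

namespace Pool.Agent.Helper65.CL

open NumberField Polynomial Finset Pool.Agent.Helper4.CB Pool.Agent.Helper25.CB
  Pool.Agent.Helper35.CB

variable {K : Type} [Field K] [NumberField K]

/-- **the sieve with scaling `μ`, degree at most two** -/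
theorem glue_two (K : Type) [Field K] [NumberField K] (Λ : Finset ℕ) (hΛ : ∀ l ∈ Λ, l.Prime)
    (D J0 : ℕ) :
    ∃ J Y : ℕ, 1 ≤ J ∧ J0 ≤ J ∧ 2 ≤ Y ∧ (∀ l ∈ Λ, l ∣ Y) ∧ ∀ S : Finset (𝓞 K)[X], S.card ≤ D →
    (∀ P ∈ S, P.Monic ∧ 1 ≤ P.natDegree ∧ P.natDegree ≤ 2 ∧
      Irreducible (P.map (algebraMap (𝓞 K) K))) →
    ∀ (m r : ℕ) (μ : 𝓞 K), m ≠ 0 → Y ∣ m → r.Coprime m → μ ≠ 0 →
      (∀ q : Pm K m, μ ∉ q.1.asIdeal) →
      (∀ u v : 𝓞 K, (m : 𝓞 K) ∣ u - (r : 𝓞 K) → (m : 𝓞 K) ∣ v - (r : 𝓞 K) →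
        ∀ l ∈ Λ, Cofac m (l ^ J) v ∧ ∀ P ∈ S, Cofac m (l ^ J) (hv P u (μ * v))) →
      ∀ Z : Finset K, ∃ u v : 𝓞 K,
        (m : 𝓞 K) ∣ u - (r : 𝓞 K) ∧ (m : 𝓞 K) ∣ v - (r : 𝓞 K) ∧ u ≠ 0 ∧ v ≠ 0 ∧
        IsCoprime u ((m : 𝓞 K) * v) ∧ (u : K) / (μ * v) ∉ Z ∧
        ∀ p : Pl K, Bad Λ J p → (m : 𝓞 K) ∉ p.asIdeal →
          v ∉ p.asIdeal ∧ ∀ P ∈ S, hv P u (μ * v) ∉ p.asIdeal := by
  classical
  have hn : 1 ≤ Module.finrank ℚ K := Module.finrank_pos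
  obtain ⟨Cm, hCm0, hCm⟩ := mertens_upper K
  obtain ⟨Y0, ε, hε, hcore⟩ := core (Module.finrank ℚ K) (2 * D + 1) (D + 1) hn Cm
  obtain ⟨J1, hJ1⟩ := Pool.Agent.Helper65.CL.bad_sum K Λ hΛ hε
  obtain ⟨C3, hC3⟩ := sum_nm_rpow K
  obtain ⟨J, hJ⟩ : ∃ J, J = J0 + J1 + 1 := ⟨_, rfl⟩
  have hΛ1 : ∏ l ∈ Λ, l ≠ 0 := Finset.prod_ne_zero_iff.2 (fun l hl => (hΛ l hl).ne_zero)
  have hY2 : 2 ≤ 2 * (∏ l ∈ Λ, l) * Y0.factorial := by
    have h1 : 1 ≤ ∏ l ∈ Λ, l := Nat.one_le_iff_ne_zero.2 hΛ1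
    exact le_trans (by omega) (Nat.le_mul_of_pos_right _ (Nat.factorial_pos _))
  refine ⟨J, 2 * (∏ l ∈ Λ, l) * Y0.factorial, by omega, by omega, hY2,
    fun l hl => ((Finset.dvd_prod_of_mem _ hl).mul_left 2).mul_right _,
    fun S hSD hS m r μ hm0 hYm hrm hμ0 hμ hcof Z => ?_⟩
  have hmY : Y0.factorial ∣ m := (Dvd.intro_left _ rfl).trans hYm
  have hmK : (m : 𝓞 K) ≠ 0 := Nat.cast_ne_zero.2 hm0
  have hm2 : m ≠ 1 := by
    rintro rfl
    have := Nat.le_of_dvd (by norm_num) hYm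
    omega
  have hr0 : ∀ x : 𝓞 K, (m : 𝓞 K) ∣ x - (r : 𝓞 K) → x ≠ 0 := ne_zero_of_congr hm2 hrm
  have hSm : ∀ P ∈ S, P.Monic := fun P hP => (hS P hP).1
  have hD : ∑ P ∈ S, P.natDegree + 1 ≤ 2 * D + 1 := by
    have h1 : ∑ P ∈ S, P.natDegree ≤ ∑ _P ∈ S, 2 := sum_le_sum (fun P hP => (hS P hP).2.2.1)
    rw [sum_const, smul_eq_mul] at h1
    omega
  obtain ⟨f, hf⟩ := exists_surj S hSD
  -- constants
  choose! C1 hC1 using fun P : (𝓞 K)[X] => Helper75.CB.norm_hv_le (K := K) P μ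
  obtain ⟨C2, hC2⟩ := Helper75.CB.norm_fst_le K
  obtain ⟨C4, hC4⟩ := Helper75.CB.norm_snd_le K
  obtain ⟨C5, hC5⟩ := rad_both K (eK K)
  obtain ⟨C, hC⟩ : ∃ C, C = ∑ P ∈ S, C1 P * 2 ^ (P.natDegree * Module.finrank ℚ K) +
    C2 * 2 ^ Module.finrank ℚ K + C4 * 2 ^ Module.finrank ℚ K + C5 + ⌈C3⌉₊ := ⟨_, rfl⟩
  obtain ⟨X1, hX1⟩ := hcore (𝓞 K × 𝓞 K) (sysG S hSm μ m (2 * D + 1) hμ hD) rfl
    (fun q => le_nm_of_factorial hmY q)
    (by
      intro x y hx hxy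
      refine le_trans ?_ (hCm x y hx hxy)
      refine sum_sub_le (K := K) (m := m) _ _ (fun p => Real.log (nm p) / nm p) log_div_nonneg ?_
      intro q hq
      have hq' := (@Finset.mem_filter _ _ (_) _ _).1 hq
      exact (@Finset.mem_filter _ _ (_) _ _).2 ⟨mem_plLE.2 ((Sys.mem_le _).1 hq'.1), hq'.2⟩)
    {q | Bad Λ J q.1}
    (by
      intro x hx
      refine le_trans ?_ (hJ1 J (by omega) x hx)
      refine sum_sub_le (K := K) (m := m) _ _ (fun p => Real.log (nm p) / nm p) log_div_nonneg ?_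
      intro q hq
      have hq' := (@Finset.mem_filter _ _ (_) _ _).1 hq
      exact (@Finset.mem_filter _ _ (_) _ _).2 ⟨mem_plLE.2 ((Sys.mem_le _).1 hq'.1), hq'.2⟩)
    (fun l => facOG S hSm m (2 * D + 1) hD μ hμ hμ0 hS (f l))
    (by
      intro q hq g hg
      right
      rcases EVG_cover hSm q (hμ q) hg with h | ⟨P, hP, t, ht, hgt⟩
      · obtain ⟨l, hl⟩ := hf none
        refine ⟨l, ?_⟩
        rw [hl]
        exact ⟨q, rfl, h⟩
      · obtain ⟨l, hl⟩ := hf (some ⟨P, hP⟩)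
        refine ⟨l, ?_⟩
        rw [hl]
        exact ⟨⟨q, ⟨t, ht⟩⟩, rfl, hgt⟩)
    (gam (Ideal.span {(m : 𝓞 K)})) ((r : 𝓞 K), (r : 𝓞 K)) (fun _ => tau K) C
    (index_span_ne_zero hmK)
    (fun T => com_span T (fun q : Pm K m => q.1) (m : 𝓞 K) (fun q _ => q.2))
    (by
      -- the cofactor
      intro X hX g hg hg0 l p hp hgp
      have hgu : (m : 𝓞 K) ∣ g.1 - (r : 𝓞 K) := Ideal.mem_span_singleton.1 hg0.1
      have hgv : (m : 𝓞 K) ∣ g.2 - (r : 𝓞 K) := Ideal.mem_span_singleton.1 hg0.2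
      revert p
      rcases f l with _ | P
      · intro p hp hgp
        obtain ⟨l', hl', hp'⟩ := hp
        obtain ⟨q', h1, h2⟩ := (hcof g.1 g.2 hgu hgv l' hl').1 p.1 p.2 hp' hgp
        refine ⟨q', Or.inl h1, h2.trans ((hC4 (2 * X) (by omega) g (box_sub hX hg)).trans ?_)⟩
        show C4 * (2 * X) ^ Module.finrank ℚ K ≤ C * X ^ (1 * Module.finrank ℚ K)
        rw [one_mul, mul_pow, ← mul_assoc]
        exact Nat.mul_le_mul_right _ (by omega)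
      · intro p hp hgp
        have h0 : hv P.1 g.1 (μ * g.2) ∈ p.1.1.asIdeal := hom_of_root (rts_root p.2.2) hgp
        obtain ⟨l', hl', hp'⟩ := hp
        obtain ⟨q', h1, h2⟩ := (hcof g.1 g.2 hgu hgv l' hl').2 P.1 P.2 p.1.1 p.1.2 hp' h0
        refine ⟨q', Or.inr ⟨P.1, P.2, h1⟩, h2.trans ((hC1 P.1 (2 * X) (by omega) g
          (box_sub hX hg)).trans ?_)⟩
        show C1 P.1 * (2 * X) ^ (P.1.natDegree * Module.finrank ℚ K) ≤
          C * X ^ (P.1.natDegree * Module.finrank ℚ K)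
        rw [mul_pow, ← mul_assoc]
        refine Nat.mul_le_mul_right _ ?_
        have h3 : C1 P.1 * 2 ^ (P.1.natDegree * Module.finrank ℚ K) ≤
            ∑ P ∈ S, C1 P * 2 ^ (P.natDegree * Module.finrank ℚ K) :=
          single_le_sum (f := fun P : (𝓞 K)[X] => C1 P * 2 ^ (P.natDegree * Module.finrank ℚ K))
            (fun _ _ => Nat.zero_le _) P.2
        omega)
    (by
      intro X hX g hg q hq
      have h1 := nm_le_norm (fst_ne_zero hg) q.1 hq.1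
      refine h1.trans ((hC2 (2 * X) (by omega) g (box_sub hX hg)).trans ?_)
      rw [mul_pow, ← mul_assoc]
      exact Nat.mul_le_mul_right _ (by omega))
    (by
      intro q ρ hρ
      have h1 := hC5 q.1 (gam q.1.asIdeal) (fun g => mem_gam) ρ hρ
      intro g
      obtain ⟨l, hl, h2⟩ := h1 g
      refine ⟨l, hl, fun i => (h2 i).trans ?_⟩
      have : C5 * ρ ≤ C * ρ := Nat.mul_le_mul_right _ (by omega)
      exact_mod_cast this)
    (by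
      intro T
      have h1 : ∑ q ∈ T, (nm q.1 : ℝ) ^ (-(3 / 2) : ℝ) ≤ C3 := by
        exact le_trans (Finset.sum_map T (Function.Embedding.subtype _)
          (fun v : Pl K => (nm v : ℝ) ^ (-(3 / 2) : ℝ))).ge
            (hC3 (T.map (Function.Embedding.subtype _)))
      refine h1.trans ((Nat.le_ceil C3).trans ?_)
      have : ⌈C3⌉₊ ≤ C := by omega
      exact_mod_cast this)
  -- the choice of the box
  obtain ⟨X2, hX2⟩ := rpow_gt (Module.finrank ℚ K) Z.card hn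
  have hA := hX1 (X1 + X2) (by omega)
  have hB := hX2 (X1 + X2) (by omega)
  obtain ⟨A, hAdef⟩ : ∃ A, A = (bx (eK K) (tau K) (X1 + X2)).filter (fun g =>
      g - ((r : 𝓞 K), (r : 𝓞 K)) ∈ gam (Ideal.span {(m : 𝓞 K)}) ∧
        (∀ q : Pm K m, Bad Λ J q.1 → g ∉ EV S μ q.1) ∧
        ∀ q : Pm K m, g ∉ gam q.1.asIdeal) := ⟨_, rfl⟩
  have hAc : ((X1 + X2 : ℕ) : ℝ) ^ ((2 * Module.finrank ℚ K : ℝ) - 1 / 2) ≤ A.card := by
    refine hA.trans (le_of_eq ?_)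
    rw [hAdef]
    congr 2
  obtain ⟨B, hBdef⟩ : ∃ B, B = Z.biUnion (fun z => (bx (eK K) (tau K) (X1 + X2)).filter
      (fun g => (g.1 : K) = (z * μ) * (g.2 : K))) := ⟨_, rfl⟩
  have hBc : B.card ≤ Z.card * (X1 + X2) ^ Module.finrank ℚ K := by
    rw [hBdef]
    refine card_biUnion_le.trans ((sum_le_card_nsmul _ _ ((X1 + X2) ^ Module.finrank ℚ K)
      (fun z _ => Helper32.CB.card_line K (z * μ) _ (X1 + X2))).trans (le_of_eq (smul_eq_mul _ _)))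
  have hlt : B.card < A.card := by
    have h1 : (B.card : ℝ) < A.card := by
      refine lt_of_le_of_lt ?_ (hB.trans_le hAc)
      exact_mod_cast hBc
    exact_mod_cast h1
  obtain ⟨g, hgA, hgB⟩ := exists_mem_notMem_of_card_lt_card hlt
  rw [hAdef, mem_filter] at hgA
  obtain ⟨hgX, hg0, hgE, hgG⟩ := hgA
  have hgu : (m : 𝓞 K) ∣ g.1 - (r : 𝓞 K) := Ideal.mem_span_singleton.1 hg0.1
  have hgv : (m : 𝓞 K) ∣ g.2 - (r : 𝓞 K) := Ideal.mem_span_singleton.1 hg0.2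
  have hv0 : g.2 ≠ 0 := hr0 _ hgv
  refine ⟨g.1, g.2, hgu, hgv, fst_ne_zero hgX, hv0, ?_, ?_, ?_⟩
  · refine Helper56.CB.coprime_of_places (fun p hp => Pool.Agent.Helper35.CB.notMem_of_congr hrm hgu p hp) ?_
    rintro p ⟨hp1, hp2⟩
    by_cases hp : (m : 𝓞 K) ∈ p.asIdeal
    · exact Pool.Agent.Helper35.CB.notMem_of_congr hrm hgu p hp hp1
    · exact hgG ⟨p, hp⟩ ⟨hp1, hp2⟩
  · intro hz
    apply hgB
    rw [hBdef, mem_biUnion]
    refine ⟨_, hz, mem_filter.2 ⟨hgX, ?_⟩⟩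
    have h1 : (μ : K) ≠ 0 := by
      intro h
      exact hμ0 (RingOfIntegers.ext h)
    have h2 : (g.2 : K) ≠ 0 := by
      intro h
      exact hv0 (RingOfIntegers.ext h)
    field_simp
  · intro p hp hpm
    have h1 := hgE ⟨p, hpm⟩ hp
    exact ⟨fun h => h1 (Or.inl h), fun P hP h => h1 (Or.inr ⟨P, hP, h⟩)⟩

end Pool.Agent.Helper65.CL
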