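import Pool.Agent.Helper65.CL.Defs
import Pool.Agent.Helper14.CL.CofFam

/-!
# CB for symbols of prime degrees: cofactors at the base point `1`
-/

set_option autoImplicit false

namespace Pool.Agent.Helper65.CL

open NumberField Polynomial Pool.Agent.Helper4.CB Pool.Agent.Helper35.CB
open Pool.Agent.Helper14.CB (CofI CofI.cofac)

/-- the cofactors at a general base point, with their classes, for all primes of `Λ` -/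
theorem exists_base (K : Type) [Field K] [NumberField K] (Λ : Finset ℕ) (hΛ : ∀ l ∈ Λ, l.Prime)
    (D dm : ℕ) (hdm : 1 ≤ dm) : ∃ J1 : ℕ, ∀ J : ℕ, J1 ≤ J →
    ∀ S : Finset (𝓞 K)[X], S.card ≤ D →
    (∀ P ∈ S, P.Monic ∧ 1 ≤ P.natDegree ∧ P.natDegree ≤ dm ∧ P.eval 1 ≠ 0) →
    ∀ m1 : ℕ, 1 < m1 → (∀ l ∈ Λ, l ∣ m1) →
    ∃ (k r : ℕ) (α : ∀ l : ℕ, (𝓞 K)[X] → ZMod (l ^ J)), 1 ≤ k ∧ r.Coprime m1 ∧
      (∀ l ∈ Λ, ∀ P ∈ S, IsUnit (α l P)) ∧ ∀ u v : 𝓞 K,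
      ((m1 ^ k : ℕ) : 𝓞 K) ∣ u - (r : 𝓞 K) → ((m1 ^ k : ℕ) : 𝓞 K) ∣ v - (r : 𝓞 K) →
      ∀ l ∈ Λ, Cofac (m1 ^ k) (l ^ J) v ∧
        ∀ P ∈ S, CofI (m1 ^ k) (l ^ J) (α l P) (hv P u v) := by
  classical
  obtain ⟨g, hg⟩ : ∃ g, g = 1 + ∏ l ∈ Λ, l := ⟨_, rfl⟩
  have hΛ1 : 1 ≤ ∏ l ∈ Λ, l := Finset.one_le_prod' (fun l hl => (hΛ l hl).one_lt.le)
  refine ⟨g ^ ((Fintype.card {l // l ∈ Λ} * (D + 1)) * dm * Module.finrank ℚ K) + 2,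
    fun J hJ S hSD hS m1 h1m h2 => ?_⟩
  have hgc : ∀ i : {l // l ∈ Λ}, g.Coprime (i.1 ^ J) := by
    intro i
    refine Nat.Coprime.pow_right _ ?_
    rw [hg]
    obtain ⟨c, hc⟩ := Finset.dvd_prod_of_mem (fun l : ℕ => l) i.2
    rw [hc]
    simp
  obtain ⟨k, r, α, β, hk, -, hr, hα, -, h⟩ := Pool.Agent.Helper14.CL.exists_cofI_fam K
    (fun i : {l // l ∈ Λ} => i.1 ^ J) (g := g) (by omega) hgc D dm hdm (by
      intro i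
      have h3 : J < 2 ^ J := Nat.lt_two_pow_self
      have h4 : 2 ^ J ≤ i.1 ^ J := Nat.pow_le_pow_left (hΛ i.1 i.2).two_le J
      omega) S hSD hS m1 h1m J (fun i => pow_dvd_pow_of_dvd (h2 i.1 i.2) J)
  refine ⟨k, r, fun l P => if hl : l ∈ Λ then α ⟨l, hl⟩ P else 1, hk, ?_, ?_, ?_⟩
  · exact Nat.Coprime.coprime_dvd_right (dvd_pow_self _ (by omega)) hr
  · intro l hl P hP
    simp only [dif_pos hl]
    exact hα ⟨l, hl⟩ P hP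
  · intro u v hu hv' l hl
    obtain ⟨h1, h3⟩ := h u v hu hv'
    refine ⟨(h1.2 ⟨l, hl⟩).cofac, fun P hP => ?_⟩
    simp only [dif_pos hl]
    exact (h3 P hP).2 ⟨l, hl⟩

end Pool.Agent.Helper65.CL
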