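import Pool.Agent.Helper4.CB.STM
import Pool.Agent.Helper69.CB.TriDefs

/-!
# CB for symbols of prime degrees: definitions of the sieve side

`Λ` is a finite set of primes; the bad places for `Λ` and `J` are the places `p` with
`N p = 1` modulo `l ^ J` for some `l ∈ Λ`.
-/

set_option autoImplicit false

namespace Pool.Agent.Helper65.CL

open NumberField Polynomial Pool.Agent.Helper4.CB Pool.Agent.Helper69.CB

/-- bad places -/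
def Bad {K : Type} [Field K] [NumberField K] (Λ : Finset ℕ) (J : ℕ) (p : Pl K) : Prop :=
  ∃ l ∈ Λ, nm p ≡ 1 [MOD l ^ J]

/-- the sieve statement around the point `1` for one `J`: `u = v = r` modulo a power of `m1`, the
bad places which do not divide `m1` divide neither `v` nor the values `P(u, v)`; all discriminants
and resultants of the polynomials divide `m1` -/
def SieveAt (K : Type) [Field K] [NumberField K] (dm D : ℕ) (Λ : Finset ℕ) (J Y : ℕ) : Prop :=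
  ∀ S : Finset (𝓞 K)[X], S.card ≤ D →
    (∀ P ∈ S, P.Monic ∧ 1 ≤ P.natDegree ∧ P.natDegree ≤ dm ∧
      Irreducible (P.map (algebraMap (𝓞 K) K)) ∧ P.eval 1 ≠ 0) →
    ∀ m1 : ℕ, m1 ≠ 0 → Y ∣ m1 →
    (∀ P ∈ S, ∃ A B : (𝓞 K)[X], A * P + B * derivative P = C (m1 : 𝓞 K)) →
    (∀ P ∈ S, ∀ P' ∈ S, P ≠ P' → ∃ A B : (𝓞 K)[X], A * P + B * P' = C (m1 : 𝓞 K)) →
    ∀ Z : Finset K, ∃ (k r : ℕ) (u v : 𝓞 K), 1 ≤ k ∧
      r.Coprime m1 ∧ ((m1 ^ k : ℕ) : 𝓞 K) ∣ u - (r : 𝓞 K) ∧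
      ((m1 ^ k : ℕ) : 𝓞 K) ∣ v - (r : 𝓞 K) ∧ v ≠ 0 ∧ (u : K) / v ∉ Z ∧
      ∀ p : Pl K, Bad Λ J p → (m1 : 𝓞 K) ∉ p.asIdeal →
        v ∉ p.asIdeal ∧ ∀ P ∈ S, hv P u v ∉ p.asIdeal

/-- **SieveG** -/
def SieveG (Λ : Finset ℕ) (K : Type) [Field K] [NumberField K] (dm : ℕ) : Prop :=
  ∀ D J0 : ℕ, ∃ J Y : ℕ, J0 ≤ J ∧ Y ≠ 0 ∧ SieveAt K dm D Λ J Y

/-- **ONE VARIABLE STEP (D)** -/
def StepD (K : Type) [Field K] [NumberField K] (Λ : Finset ℕ) (J dm A Dg : ℕ) : Prop :=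
  ∀ (ι κ : Type) [Fintype ι] [Fintype κ] (F : ι → Polynomial K) (T : κ → Finset (Polynomial K)),
    Fintype.card ι + Fintype.card κ ≤ A →
    (∀ i, (F i).natDegree ≤ dm ∧ (F i).natDegree ≤ Dg) →
    (∀ k, ∀ f ∈ T k, f.natDegree ≤ Dg) →
    (∀ p : Pl K, Bad Λ J p → ∀ i, (∀ j, vl p ((F i).coeff j) ≤ 1) ∧
      ∃ j, vl p ((F i).coeff j) = 1) →
    (∀ p : Pl K, Bad Λ J p → ∀ k, (∀ f ∈ T k, ∀ j, vl p (f.coeff j) ≤ 1) ∧
      ∃ f ∈ T k, ∃ j, vl p (f.coeff j) = 1) →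
    (∀ k, Ideal.span (T k : Set (Polynomial K)) = ⊤) →
    ∀ Z : Finset K, ∃ τ : K, τ ∉ Z ∧ ∀ p : Pl K, Bad Λ J p → vl p τ ≤ 1 ∧
      (∀ i, vl p ((F i).eval τ) = 1) ∧ ∀ k, ∃ f ∈ T k, vl p (f.eval τ) = 1

/-- **THE CLAIM (E)** -/
def TriClaim (K : Type) [Field K] [NumberField K] (Λ : Finset ℕ) (J dm A Dg n : ℕ) : Prop :=
  ∀ (ι κ : Type) [Fintype ι] [Fintype κ] (F : ι → MvPolynomial (Fin n) K)
    (T : κ → Finset (MvPolynomial (Fin n) K)) (H : MvPolynomial (Fin n) K),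
    Fintype.card ι + Fintype.card κ ≤ A →
    (∀ i, Irreducible (F i) ∧ TriDeg dm (F i)) →
    (∀ k, (∃ f ∈ T k, f ≠ 0) ∧ ∀ q, Irreducible q → ∃ f ∈ T k, ¬ q ∣ f) →
    (∀ i j, (F i).degreeOf j ≤ Dg) → (∀ k, ∀ f ∈ T k, ∀ j, f.degreeOf j ≤ Dg) →
    (∀ p : Pl K, Bad Λ J p → ∀ i m, (F i).coeff m ≠ 0 → vl p ((F i).coeff m) = 1) →
    (∀ p : Pl K, Bad Λ J p → ∀ k, ∀ f ∈ T k, ∀ m, f.coeff m ≠ 0 → vl p (f.coeff m) = 1) →
    H ≠ 0 →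
    ∃ t : Fin n → K, MvPolynomial.eval t H ≠ 0 ∧ ∀ p : Pl K, Bad Λ J p →
      (∀ j, vl p (t j) ≤ 1) ∧
      (∀ i, vl p (MvPolynomial.eval t (F i)) = 1) ∧
      ∀ k, ∃ f ∈ T k, vl p (MvPolynomial.eval t f) = 1

/-- the symbol `(a, b)` of degree `l` is unramified at the prime element `P`: the tame symbol of
`a = P ^ e * a1` and `b = P ^ f * b1` is an `l`-th power in the residue field of `P` -/
def LCU {R : Type*} [CommRing R] (l : ℕ) (P a b : R) : Prop :=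
  ∃ (e f : ℕ) (a1 b1 g h : R), a = P ^ e * a1 ∧ b = P ^ f * b1 ∧ ¬ P ∣ a1 ∧ ¬ P ∣ b1 ∧ ¬ P ∣ g ∧
    P ∣ g ^ l * ((-1) ^ (e * f) * (a1 ^ f * b1 ^ ((l - 1) * e))) - h ^ l

/-- the local condition for numbers at a place `p`: the tame symbol of `a = z ^ e * a1` and
`b = z ^ f * b1` is an `l`-th power in the residue field -/
def LocU {K : Type} [Field K] [NumberField K] (l : ℕ) (p : Pl K) (a b : K) : Prop :=
  ∃ (z a1 b1 g h : K) (e f : ℕ), a = z ^ e * a1 ∧ b = z ^ f * b1 ∧ vl p a1 = 1 ∧ vl p b1 = 1 ∧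
    vl p g = 1 ∧ vl p (g ^ l * ((-1) ^ (e * f) * (a1 ^ f * b1 ^ ((l - 1) * e))) - h ^ l) < 1

end Pool.Agent.Helper65.CL
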