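import Pool.Agent.Helper65.CL.Final

/-!
# CB for symbols of prime degrees: final theorem with an arbitrary degree bound `dm`
-/

set_option autoImplicit false

namespace Pool.Agent.Helper65.CL

open NumberField Pool.Agent.Helper4.CB Pool.Agent.Helper69.CB Pool.Agent.Helper18.CL
open AlgebraicGeometry CategoryTheory Pool.Agent.Helper15
open Pool.Agent.Helper65.CB (DominatedOver)
open Pool.Agent.Helper3.CL (NormRing end_famL end_famL_dom)

/-- the sieve statement for all number fields and all finite sets of primes -/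
def SieveAll (dm : ℕ) : Prop :=
  ∀ (Λ : Finset ℕ), (∀ q ∈ Λ, q.Prime) → ∀ (M : Type) [Field M] [NumberField M], SieveG Λ M dm

theorem sieveAll_three : SieveAll 3 := fun Λ hΛ M _ _ => sieveG_three Λ hΛ M

theorem triClaim_dm (dm : ℕ) (hS : SieveAll dm) (Λ : Finset ℕ) (hΛ : ∀ l ∈ Λ, l.Prime)
    (K : Type) [Field K] [NumberField K] (n A Dg J0 : ℕ) :
    ∃ J, J0 ≤ J ∧ TriClaim K Λ J dm A Dg n := by
  obtain ⟨J, h1, h2⟩ := stepD_of_sieve K (fun l hl => (hΛ l hl).two_le) (hS Λ hΛ K) A Dg J0
  exact ⟨J, h1, triClaim h2 n⟩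

/-- **final theorem** for `Spec NormRing`; `W l`: the algebra side with tame symbols is available
for `l`. -/
theorem final_spec (dm : ℕ) (hS : SieveAll dm) (W : ℕ → Prop)
    (hW : ∀ (M : Type) [Field M] [NumberField M] (l J : ℕ),
      l.Prime → 2 ≤ J → W l → AlgStmtU M l J)
    (K : Type) [Field K] [NumberField K] {n r : ℕ} (l : Fin r → ℕ) [∀ i, NeZero (l i)]
    (hl : ∀ i, (l i).Prime) (a b : Fin r → MvPolynomial (Fin n) K)
    (ha : ∀ i, a i ≠ 0) (hb : ∀ i, b i ≠ 0)
    (hP : ∀ i, ∀ P : MvPolynomial (Fin n) (AlgebraicClosure K), Irreducible P →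
      P ∣ MvPolynomial.map (algebraMap K (AlgebraicClosure K)) (a i * b i) → TriDeg dm P ∨
        (W (l i) ∧ LCU (l i) P (MvPolynomial.map (algebraMap K (AlgebraicClosure K)) (a i))
          (MvPolynomial.map (algebraMap K (AlgebraicClosure K)) (b i)))) :
    PotentiallyDense K (Spec (CommRingCat.of (NormRing l a b)))
      (Spec.map (CommRingCat.ofHom (algebraMap K (NormRing l a b)))) := by
  classical
  obtain ⟨M, iM, nM, aM, J, hJ, hpt⟩ := points_geom dm K l hl (Finset.univ.image l)
    (by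
      intro q hq
      obtain ⟨i, -, rfl⟩ := Finset.mem_image.1 hq
      exact hl i)
    (fun i => Finset.mem_image_of_mem l (Finset.mem_univ i))
    (fun M _ _ A Dg J0 => triClaim_dm dm hS _ (by
      intro q hq
      obtain ⟨i, -, rfl⟩ := Finset.mem_image.1 hq
      exact hl i) M n A Dg J0) W 2 a b ha hb hP
  exact end_famL K M (MvPolynomial (Fin n) K) l hl a b
    (fun i x y => ∀ p : Pl M, BadL (l i) J p → LocU (l i) p x y ∧
      (W (l i) ∨ (p.valuation M x = 1 ∧ p.valuation M y = 1)))
    (alg_fam M l hl J hJ W (fun i h => hW M (l i) J (hl i) hJ h)) hpt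

/-- **final theorem** for dominated schemes -/
theorem final_dm (dm : ℕ) (hS : SieveAll dm) (W : ℕ → Prop)
    (hW : ∀ (M : Type) [Field M] [NumberField M] (l J : ℕ),
      l.Prime → 2 ≤ J → W l → AlgStmtU M l J)
    (K : Type) [Field K] [NumberField K] {n r : ℕ} (l : Fin r → ℕ) [∀ i, NeZero (l i)]
    (hl : ∀ i, (l i).Prime) (a b : Fin r → MvPolynomial (Fin n) K)
    (ha : ∀ i, a i ≠ 0) (hb : ∀ i, b i ≠ 0)
    (hP : ∀ i, ∀ P : MvPolynomial (Fin n) (AlgebraicClosure K), Irreducible P →
      P ∣ MvPolynomial.map (algebraMap K (AlgebraicClosure K)) (a i * b i) → TriDeg dm P ∨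
        (W (l i) ∧ LCU (l i) P (MvPolynomial.map (algebraMap K (AlgebraicClosure K)) (a i))
          (MvPolynomial.map (algebraMap K (AlgebraicClosure K)) (b i))))
    (X : Scheme.{0}) (s : X ⟶ Spec (CommRingCat.of K))
    (hX : DominatedOver K X (Spec (CommRingCat.of (NormRing l a b))) s
      (Spec.map (CommRingCat.ofHom (algebraMap K (NormRing l a b))))) :
    PotentiallyDense K X s :=
  Pool.Agent.Helper65.CB.PotentiallyDense.of_dominated hX
    (final_spec dm hS W hW K l hl a b ha hb hP)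

/-- `W` for the prime `2` -/
theorem algU_of_two (M : Type) [Field M] [NumberField M] (l J : ℕ) (_ : l.Prime) (_ : 2 ≤ J)
    (h : l = 2) : AlgStmtU M l J := by
  subst h
  exact algU_two M J

end Pool.Agent.Helper65.CL
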