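import Pool.Agent.Helper65.CL.Defs
import Pool.Agent.Helper4.CB.Desc

/-!
# CB for symbols of prime degrees: the factors of a polynomial over the algebraic closure are
defined over a finite extension
-/

set_option autoImplicit false

namespace Pool.Agent.Helper65.CL

open MvPolynomial
open Pool.Agent.Helper4.CB (isUnit_of_map irreducible_of_map exists_field)

/-- `LCU` depends only on `P` up to a unit -/
theorem LCU.of_associated {R : Type*} [CommRing R] {l : ℕ} {P Q a b : R} (hl : 1 ≤ l)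
    (h : Associated P Q) (hu : LCU l P a b) : LCU l Q a b := by
  obtain ⟨e, f, a1, b1, g, k, ha, hb, ha1, hb1, hg, ht⟩ := hu
  obtain ⟨u, hu⟩ := h.symm
  -- `Q * u = P`
  have hQP : ∀ x : R, Q ∣ x ↔ P ∣ x := fun x => (h.dvd_iff_dvd_left).symm
  have hun : ∀ (n : ℕ) (x : R), Q ∣ (u : R) ^ n * x ↔ Q ∣ x := fun n x => by
    rw [mul_comm]
    exact (u.isUnit.pow n).dvd_mul_right
  refine ⟨e, f, u ^ e * a1, u ^ f * b1, g, u ^ (e * f) * k, ?_, ?_, ?_, ?_, ?_, ?_⟩
  · rw [ha, ← hu]; ring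
  · rw [hb, ← hu]; ring
  · rw [hun, hQP]; exact ha1
  · rw [hun, hQP]; exact hb1
  · rw [hQP]; exact hg
  · have hx : (u : R) ^ (e * f * l) = (u : R) ^ (e * f) * (u : R) ^ (f * ((l - 1) * e)) := by
      rw [← pow_add]
      congr 1
      obtain ⟨l', rfl⟩ : ∃ l', l = l' + 1 := ⟨l - 1, by omega⟩
      rw [Nat.add_sub_cancel]
      ring
    have : g ^ l * ((-1) ^ (e * f) * ((↑u ^ e * a1) ^ f * (↑u ^ f * b1) ^ ((l - 1) * e))) -
        (↑u ^ (e * f) * k) ^ l =
        (u : R) ^ (e * f * l) *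
          (g ^ l * ((-1) ^ (e * f) * (a1 ^ f * b1 ^ ((l - 1) * e))) - k ^ l) := by
      rw [mul_pow, mul_pow, mul_pow, ← pow_mul, ← pow_mul, ← pow_mul, mul_sub, hx]
      ring
    rw [this, hun, hQP]
    exact ht

/-- **DESC1.** finitely many polynomials over the algebraic closure decide the factors of `a * b`:
`G` is a condition on the degrees of a polynomial in the variables. -/
theorem exists_data {K : Type} [Field K] {σ : Type} {l : ℕ} (hl : 1 ≤ l) (W : Prop)
    (G : (σ → ℕ) → Prop)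
    (a b : MvPolynomial σ K) (ha : a ≠ 0) (hb : b ≠ 0)
    (h : ∀ P : MvPolynomial σ (AlgebraicClosure K), Irreducible P →
      P ∣ map (algebraMap K (AlgebraicClosure K)) (a * b) →
      G (fun j => P.degreeOf j) ∨ (W ∧ LCU l P (map (algebraMap K (AlgebraicClosure K)) a)
        (map (algebraMap K (AlgebraicClosure K)) b))) :
    ∃ T : Finset (MvPolynomial σ (AlgebraicClosure K)),
      ∀ M : IntermediateField K (AlgebraicClosure K),
      (∀ p ∈ T, ∃ q : MvPolynomial σ M, map (algebraMap M (AlgebraicClosure K)) q = p) →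
      ∀ P : MvPolynomial σ M, Irreducible P → P ∣ map (algebraMap K M) (a * b) →
        G (fun j => P.degreeOf j) ∨
          (W ∧ LCU l P (map (algebraMap K M) a) (map (algebraMap K M) b)) := by
  classical
  set Ω := AlgebraicClosure K
  set i : K →+* Ω := algebraMap K Ω
  have hc0 : map i (a * b) ≠ 0 := by
    rw [Ne, map_eq_zero_iff _ (map_injective i i.injective)]
    exact mul_ne_zero ha hb
  obtain ⟨F, hF, u, hu⟩ := WfDvdMonoid.exists_factors (map i (a * b)) hc0
  -- the data of a factor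
  have hex : ∀ P : MvPolynomial σ Ω, ∃ T : Finset (MvPolynomial σ Ω), P ∈ F →
      P ∈ T ∧ (G (fun j => P.degreeOf j) ∨
        W ∧ ∃ (e f : ℕ) (a1 b1 g k r : MvPolynomial σ Ω), a1 ∈ T ∧ b1 ∈ T ∧ g ∈ T ∧ k ∈ T ∧ r ∈ T ∧
          map i a = P ^ e * a1 ∧ map i b = P ^ f * b1 ∧ ¬ P ∣ a1 ∧ ¬ P ∣ b1 ∧ ¬ P ∣ g ∧
          g ^ l * ((-1) ^ (e * f) * (a1 ^ f * b1 ^ ((l - 1) * e))) - k ^ l = P * r) := by
    intro P
    by_cases hP : P ∈ F
    · have hPc : P ∣ map i (a * b) := by
        rw [← hu]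
        exact Dvd.dvd.mul_right (Multiset.dvd_prod hP) _
      rcases h P (hF P hP) hPc with h1 | ⟨hW, e, f, a1, b1, g, k, h1, h2, h3, h4, h5, r, h6⟩
      · exact ⟨{P}, fun _ => ⟨Finset.mem_singleton_self _, Or.inl h1⟩⟩
      · exact ⟨{P, a1, b1, g, k, r}, fun _ => ⟨by simp, Or.inr ⟨hW, e, f, a1, b1, g, k, r, by simp,
          by simp, by simp, by simp, by simp, h1, h2, h3, h4, h5, h6⟩⟩⟩
    · exact ⟨∅, fun h => absurd h hP⟩
  choose T hT using hex
  refine ⟨F.toFinset.biUnion T ∪ {(u : MvPolynomial σ Ω)}, fun M hMT Q hQ hQc => ?_⟩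
  set ι : MvPolynomial σ M →+* MvPolynomial σ Ω := map (algebraMap M Ω) with hι
  have hιinj : Function.Injective ι := map_injective _ (algebraMap M Ω).injective
  have hιa : ∀ x : MvPolynomial σ K, ι (map (algebraMap K M) x) = map i x := fun x => by
    rw [hι, map_map, ← IsScalarTower.algebraMap_eq]
  have hmem : ∀ P ∈ F, ∀ p ∈ T P, ∃ q, ι q = p := fun P hP p hp =>
    hMT p (Finset.mem_union_left _ (Finset.mem_biUnion.mpr ⟨P, Multiset.mem_toFinset.mpr hP, hp⟩))
  obtain ⟨u', hu'⟩ := hMT (u : MvPolynomial σ Ω) (by simp)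
  -- the factors over `M`
  have hfac : ∀ G : Multiset (MvPolynomial σ Ω), (∀ P ∈ G, P ∈ F) →
      ∃ G' : Multiset (MvPolynomial σ M), G'.map ι = G := by
    intro G
    induction G using Multiset.induction_on with
    | empty => exact fun _ => ⟨0, rfl⟩
    | cons P G ih =>
      intro hG
      obtain ⟨G', hG'⟩ := ih (fun P hP => hG P (Multiset.mem_cons_of_mem hP))
      have hPF := hG P (Multiset.mem_cons_self P G)
      obtain ⟨q, hq⟩ := hmem P hPF P (hT P hPF).1
      exact ⟨q ::ₘ G', by rw [Multiset.map_cons, hG', hq]⟩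
  obtain ⟨F', hF'⟩ := hfac F (fun _ h => h)
  have hu'u : IsUnit u' := isUnit_of_map (algebraMap M Ω) (by
    show IsUnit (ι u')
    rw [hι, hu']
    exact u.isUnit)
  have hc' : F'.prod * u' = map (algebraMap K M) (a * b) := by
    apply hιinj
    rw [map_mul, map_multiset_prod, hF', hιa, hu']
    exact hu
  have hQp : Prime Q := hQ.prime
  rw [← hc', hu'u.dvd_mul_right] at hQc
  obtain ⟨P', hP', hQP⟩ := hQp.exists_mem_multiset_dvd hQc
  have hP'F : ι P' ∈ F := by
    rw [← hF']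
    exact Multiset.mem_map_of_mem ι hP'
  have hP'irr : Irreducible P' := irreducible_of_map (algebraMap M Ω) (hF _ hP'F)
  have hass : Associated Q P' := hQ.associated_of_dvd hP'irr hQP
  rcases (hT _ hP'F).2 with h1 |
    ⟨hW, e, f, a1, b1, g, k, r, ma, mb, mg, mk, mr, h1, h2, h3, h4, h5, h6⟩
  · left
    have hdeg : ∀ j, (ι P').degreeOf j = Q.degreeOf j := by
      intro j
      rw [hι, degreeOf_def, degrees_map_of_injective _ (algebraMap M Ω).injective,
        ← degreeOf_def]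
      obtain ⟨v, hv⟩ := hass
      obtain ⟨c, hc, hvc⟩ := isUnit_iff_eq_C_of_isReduced.mp v.isUnit
      have h2 : P' = Q * C c := by rw [← hv, hvc]
      have h3 : Q = P' * C (c⁻¹) := by
        rw [h2, mul_assoc, ← C_mul, mul_inv_cancel₀ (isUnit_iff_ne_zero.mp hc), C_1, mul_one]
      apply le_antisymm
      · rw [h2]; exact degreeOf_mul_C_le Q j c
      · conv_lhs => rw [h3]
        exact degreeOf_mul_C_le P' j _
    have h2 : (fun j => (ι P').degreeOf j) = fun j => Q.degreeOf j := funext hdeg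
    rw [← h2]
    exact h1
  · right
    refine ⟨hW, LCU.of_associated hl hass.symm ?_⟩
    obtain ⟨a1', rfl⟩ := hmem _ hP'F _ ma
    obtain ⟨b1', rfl⟩ := hmem _ hP'F _ mb
    obtain ⟨g', rfl⟩ := hmem _ hP'F _ mg
    obtain ⟨k', rfl⟩ := hmem _ hP'F _ mk
    obtain ⟨r', rfl⟩ := hmem _ hP'F _ mr
    refine ⟨e, f, a1', b1', g', k', hιinj ?_, hιinj ?_, fun hd => h3 (map_dvd ι hd),
      fun hd => h4 (map_dvd ι hd), fun hd => h5 (map_dvd ι hd), r', hιinj ?_⟩
    · rw [hιa, h1, map_mul, map_pow]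
    · rw [hιa, h2, map_mul, map_pow]
    · rw [map_mul, ← h6]
      simp only [map_sub, map_mul, map_pow, map_neg, map_one]

/-- **DESC.** for a finite family of pairs -/
theorem descend {K : Type} [Field K] {σ ι : Type} [Finite ι] (l : ι → ℕ) (hl : ∀ i, 1 ≤ l i)
    (W : ι → Prop) (G : (σ → ℕ) → Prop)
    (a b : ι → MvPolynomial σ K) (ha : ∀ i, a i ≠ 0) (hb : ∀ i, b i ≠ 0)
    (h : ∀ i, ∀ P : MvPolynomial σ (AlgebraicClosure K), Irreducible P →
      P ∣ map (algebraMap K (AlgebraicClosure K)) (a i * b i) →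
      G (fun j => P.degreeOf j) ∨ (W i ∧ LCU (l i) P
        (map (algebraMap K (AlgebraicClosure K)) (a i))
        (map (algebraMap K (AlgebraicClosure K)) (b i)))) :
    ∃ M : IntermediateField K (AlgebraicClosure K), FiniteDimensional K M ∧
      ∀ i, ∀ P : MvPolynomial σ M, Irreducible P → P ∣ map (algebraMap K M) (a i * b i) →
        G (fun j => P.degreeOf j) ∨
          (W i ∧ LCU (l i) P (map (algebraMap K M) (a i)) (map (algebraMap K M) (b i))) := by
  classical
  cases nonempty_fintype ι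
  have h1 := fun i => exists_data (hl i) (W i) G (a i) (b i) (ha i) (hb i) (h i)
  choose T hT using h1
  obtain ⟨M, hM, hMT⟩ := exists_field (K := K) (Finset.univ.biUnion T)
  exact ⟨M, hM, fun i => hT i M (fun p hp =>
    hMT p (Finset.mem_biUnion.mpr ⟨i, Finset.mem_univ i, hp⟩))⟩

end Pool.Agent.Helper65.CL
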