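import Pool.Agent.Helper23.CL.Adm

/-!
# CB for symbols of prime degrees: sums over cofactors modulo `l ^ J`
-/

set_option autoImplicit false

namespace Pool.Agent.Helper65.CL

open NumberField Polynomial Finset Pool.Agent.Helper4.CB Pool.Agent.Helper25.CB
  Pool.Agent.Helper35.CB Pool.Agent.Helper23.CB

theorem adm_sum (K : Type) [Field K] [NumberField K] (l : ℕ) (hl : l.Prime) (k : ℕ) {ε : ℝ}
    (hε : 0 < ε) :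
    ∃ J0 : ℕ, ∀ J : ℕ, J0 ≤ J → ∃ Z0 : ℕ, ∀ z : ℕ, Z0 ≤ z → ∀ a : ZMod (l ^ J), IsUnit a →
      ∀ (m : ℕ) (P : (𝓞 K)[X]), P.Monic → P.natDegree ≤ 3 →
      (∀ q : Ideal (𝓞 K), (m : 𝓞 K) ∉ q → ∀ t, P.eval t ∈ q → P.derivative.eval t ∉ q) →
      ∀ A : Finset (Σ I : Im K m, Rt P I.1),
      (∀ x ∈ A, x.1.1 ≠ ⊤ ∧ ((Ideal.absNorm x.1.1 : ℕ) : ZMod (l ^ J)) = a ∧
        Ideal.absNorm x.1.1 ≤ z ^ k ∧ ∀ q ∈ pf x.1, z < nm q.1) →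
      ∑ x ∈ A, (1 : ℝ) / Ideal.absNorm x.1.1 ≤ ε := by
  obtain ⟨N0, hN0⟩ := Pool.Agent.Helper23.CL.adm_sumM K k hε
  refine ⟨N0 + 1, fun J hJ => hN0 (l ^ J) (pow_ne_zero _ hl.ne_zero) ?_⟩
  obtain ⟨J', rfl⟩ : ∃ J', J = J' + 1 := ⟨J - 1, by omega⟩
  rw [Nat.totient_prime_pow_succ hl]
  have h1 : J' < l ^ J' := Nat.lt_pow_self hl.one_lt
  have h2 : 1 ≤ l - 1 := by
    have := hl.two_le
    omega
  calc N0 ≤ J' := by omega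
    _ ≤ l ^ J' := h1.le
    _ ≤ l ^ J' * (l - 1) := Nat.le_mul_of_pos_right _ h2

end Pool.Agent.Helper65.CL
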