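import Pool.Agent.Helper65.CL.Claim3
import Pool.Agent.Helper65.CL.Desc
import Pool.Agent.Helper65.CL.AlgU
import Pool.Agent.Helper56.CL.TriF
import Pool.Agent.Helper3.CL.EndL

/-!
# CB for symbols of prime degrees: final theorem

Fibre products over affine space of norm hypersurfaces of prime degrees.
-/

set_option autoImplicit false

namespace Pool.Agent.Helper65.CL

open NumberField Pool.Agent.Helper4.CB Pool.Agent.Helper69.CB Pool.Agent.Helper18.CL
open AlgebraicGeometry CategoryTheory Pool.Agent.Helper15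
open Pool.Agent.Helper65.CB (DominatedOver)
open Pool.Agent.Helper3.CL (NormRing end_famL_dom)

/-- points of the base over a finite extension, hypothesis over the algebraic closure -/
theorem points_geom (dm : ℕ) (K : Type) [Field K] [NumberField K] {n r : ℕ} (l : Fin r → ℕ)
    (hl : ∀ i, (l i).Prime) (Λ : Finset ℕ) (hΛ : ∀ q ∈ Λ, q.Prime) (hlΛ : ∀ i, l i ∈ Λ)
    (hE : ∀ (M : Type) [Field M] [NumberField M] (A Dg J0 : ℕ),
      ∃ J, J0 ≤ J ∧ TriClaim M Λ J dm A Dg n)
    (W : ℕ → Prop) (J1 : ℕ) (a b : Fin r → MvPolynomial (Fin n) K)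
    (ha : ∀ i, a i ≠ 0) (hb : ∀ i, b i ≠ 0)
    (hP : ∀ i, ∀ P : MvPolynomial (Fin n) (AlgebraicClosure K), Irreducible P →
      P ∣ MvPolynomial.map (algebraMap K (AlgebraicClosure K)) (a i * b i) → TriDeg dm P ∨
        (W (l i) ∧ LCU (l i) P (MvPolynomial.map (algebraMap K (AlgebraicClosure K)) (a i))
          (MvPolynomial.map (algebraMap K (AlgebraicClosure K)) (b i)))) :
    ∃ (M : Type) (_ : Field M) (_ : NumberField M) (_ : Algebra K M) (J : ℕ), J1 ≤ J ∧
      ∀ f : MvPolynomial (Fin n) K, f ≠ 0 → ∃ φ : MvPolynomial (Fin n) K →ₐ[K] M, φ f ≠ 0 ∧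
        ∀ i, φ (a i) ≠ 0 ∧ φ (b i) ≠ 0 ∧ ∀ p : Pl M, BadL (l i) J p →
          LocU (l i) p (φ (a i)) (φ (b i)) ∧
            (W (l i) ∨ (p.valuation M (φ (a i)) = 1 ∧ p.valuation M (φ (b i)) = 1)) := by
  obtain ⟨M, hM, hMP⟩ := descend l (fun i => (hl i).one_lt.le) (fun i => W (l i))
    (fun d : Fin n → ℕ => ∀ j : Fin n, (∀ i < j, d i = 0) → d j ≤ dm) a b ha hb hP
  have hMn : NumberField M := NumberField.of_module_finite K M
  have hinj : Function.Injective (MvPolynomial.map (σ := Fin n) (algebraMap K M)) :=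
    MvPolynomial.map_injective _ (algebraMap K M).injective
  obtain ⟨J, hJ1, hJ⟩ := Pool.Agent.Helper56.CL.tri_loc M (dm := dm)
    (fun q hq => (hΛ q hq).two_le) (hE M) J1 l
    (fun i => MvPolynomial.map (algebraMap K M) (a i))
    (fun i => MvPolynomial.map (algebraMap K M) (b i))
    (fun i => by rw [Ne, map_eq_zero_iff _ hinj]; exact ha i)
    (fun i => by rw [Ne, map_eq_zero_iff _ hinj]; exact hb i)
    (fun i P hP1 hP2 => (hMP i P hP1 (by rwa [map_mul])).imp id And.right)
  refine ⟨M, inferInstance, hMn, inferInstance, J, hJ1, fun f hf => ?_⟩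
  obtain ⟨φ, h1, h2⟩ := hJ (MvPolynomial.map (algebraMap K M) f)
    (by rw [Ne, map_eq_zero_iff _ hinj]; exact hf)
  refine ⟨(φ.restrictScalars K).comp (MvPolynomial.mapAlgHom (Algebra.ofId K M)), h1,
    fun i => ⟨(h2 i).1, (h2 i).2.1, fun p hp => ?_⟩⟩
  obtain ⟨h3, h4⟩ := (h2 i).2.2 p ⟨l i, hlΛ i, hp⟩
  refine ⟨h3, ?_⟩
  by_cases hW : W (l i)
  · exact Or.inl hW
  · exact Or.inr (h4 (fun P hP1 hP2 =>
      (hMP i P hP1 (by rwa [map_mul])).resolve_right (fun h => hW h.1)))

/-- **T-TRI for families of norm hypersurfaces of prime degrees**; `W l`: the algebra side with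
tame symbols is available for `l`. -/
theorem final_of (W : ℕ → Prop) (hW : ∀ (M : Type) [Field M] [NumberField M] (l J : ℕ),
      l.Prime → 2 ≤ J → W l → AlgStmtU M l J)
    (K : Type) [Field K] [NumberField K] {n r : ℕ} (l : Fin r → ℕ) [∀ i, NeZero (l i)]
    (hl : ∀ i, (l i).Prime) (a b : Fin r → MvPolynomial (Fin n) K)
    (ha : ∀ i, a i ≠ 0) (hb : ∀ i, b i ≠ 0)
    (hP : ∀ i, ∀ P : MvPolynomial (Fin n) (AlgebraicClosure K), Irreducible P →
      P ∣ MvPolynomial.map (algebraMap K (AlgebraicClosure K)) (a i * b i) → TriDeg 3 P ∨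
        (W (l i) ∧ LCU (l i) P (MvPolynomial.map (algebraMap K (AlgebraicClosure K)) (a i))
          (MvPolynomial.map (algebraMap K (AlgebraicClosure K)) (b i))))
    (X : Scheme.{0}) (s : X ⟶ Spec (CommRingCat.of K))
    (hX : DominatedOver K X (Spec (CommRingCat.of (NormRing l a b))) s
      (Spec.map (CommRingCat.ofHom (algebraMap K (NormRing l a b))))) :
    PotentiallyDense K X s := by
  classical
  obtain ⟨M, iM, nM, aM, J, hJ, hpt⟩ := points_geom 3 K l hl (Finset.univ.image l)
    (by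
      intro q hq
      obtain ⟨i, -, rfl⟩ := Finset.mem_image.1 hq
      exact hl i)
    (fun i => Finset.mem_image_of_mem l (Finset.mem_univ i))
    (fun M _ _ A Dg J0 => triClaim_three _ (by
      intro q hq
      obtain ⟨i, -, rfl⟩ := Finset.mem_image.1 hq
      exact hl i) M n A Dg J0) W 2 a b ha hb hP
  exact end_famL_dom K M (MvPolynomial (Fin n) K) l hl a b
    (fun i x y => ∀ p : Pl M, BadL (l i) J p → LocU (l i) p x y ∧
      (W (l i) ∨ (p.valuation M x = 1 ∧ p.valuation M y = 1)))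
    (alg_fam M l hl J hJ W (fun i h => hW M (l i) J (hl i) hJ h)) hpt X s hX

/-- **T-TRI for families of norm hypersurfaces of prime degrees**, first version: unramified
factors of arbitrary degree are allowed for conics only -/
theorem t_norm (K : Type) [Field K] [NumberField K] {n r : ℕ} (l : Fin r → ℕ)
    [∀ i, NeZero (l i)] (hl : ∀ i, (l i).Prime) (a b : Fin r → MvPolynomial (Fin n) K)
    (ha : ∀ i, a i ≠ 0) (hb : ∀ i, b i ≠ 0)
    (hP : ∀ i, ∀ P : MvPolynomial (Fin n) (AlgebraicClosure K), Irreducible P →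
      P ∣ MvPolynomial.map (algebraMap K (AlgebraicClosure K)) (a i * b i) → TriDeg 3 P ∨
        (l i = 2 ∧ LCU (l i) P (MvPolynomial.map (algebraMap K (AlgebraicClosure K)) (a i))
          (MvPolynomial.map (algebraMap K (AlgebraicClosure K)) (b i))))
    (X : Scheme.{0}) (s : X ⟶ Spec (CommRingCat.of K))
    (hX : DominatedOver K X (Spec (CommRingCat.of (NormRing l a b))) s
      (Spec.map (CommRingCat.ofHom (algebraMap K (NormRing l a b))))) :
    PotentiallyDense K X s :=
  final_of (fun q => q = 2) (fun M _ _ l J _ _ h => by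
    subst h
    exact algU_two M J) K l hl a b ha hb hP X s hX

end Pool.Agent.Helper65.CL
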