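import Pool.Agent.Helper65.CL.FinalDm
import Pool.Agent.Helper17.CL.AlgU

/-!
# CB for symbols of prime degrees: final theorem with tame symbols for all primes
-/

set_option autoImplicit false

namespace Pool.Agent.Helper65.CL

open NumberField Pool.Agent.Helper4.CB Pool.Agent.Helper69.CB Pool.Agent.Helper18.CL
open AlgebraicGeometry CategoryTheory Pool.Agent.Helper15
open Pool.Agent.Helper65.CB (DominatedOver)
open Pool.Agent.Helper3.CL (NormRing)

/-- **norm bundles of prime degrees over affine space**: only the components of the discriminants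
along which the symbol is ramified are restricted. -/
theorem t_norm_all (K : Type) [Field K] [NumberField K] {n r : ℕ} (l : Fin r → ℕ)
    [∀ i, NeZero (l i)] (hl : ∀ i, (l i).Prime) (a b : Fin r → MvPolynomial (Fin n) K)
    (ha : ∀ i, a i ≠ 0) (hb : ∀ i, b i ≠ 0)
    (hP : ∀ i, ∀ P : MvPolynomial (Fin n) (AlgebraicClosure K), Irreducible P →
      P ∣ MvPolynomial.map (algebraMap K (AlgebraicClosure K)) (a i * b i) → TriDeg 3 P ∨
        LCU (l i) P (MvPolynomial.map (algebraMap K (AlgebraicClosure K)) (a i))
          (MvPolynomial.map (algebraMap K (AlgebraicClosure K)) (b i)))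
    (X : Scheme.{0}) (s : X ⟶ Spec (CommRingCat.of K))
    (hX : DominatedOver K X (Spec (CommRingCat.of (NormRing l a b))) s
      (Spec.map (CommRingCat.ofHom (algebraMap K (NormRing l a b))))) :
    PotentiallyDense K X s :=
  final_dm 3 sieveAll_three (fun _ => True)
    (fun M _ _ l J hl hJ _ => Pool.Agent.Helper17.CL.algU M l J hl (by omega)) K l hl a b ha hb
    (fun i P h1 h2 => (hP i P h1 h2).imp id (fun h => ⟨trivial, h⟩)) X s hX

end Pool.Agent.Helper65.CL
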