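import Mathlib

/-!
# CB for symbols of prime degrees: norm forms

`nForm a x` is the determinant of the multiplication by `∑ k, x k * α ^ k` on `R[α] / (α ^ l - a)`.
-/

set_option autoImplicit false

namespace Pool.Agent.Helper65.CL

/-- the matrix of the multiplication by `∑ k, x k * α ^ k` on `R[α] / (α ^ l - a)` in the basis
`1, α, ..., α ^ (l - 1)` (rows); `j - i` is taken modulo `l` -/
def nMat {R : Type*} [CommRing R] {l : ℕ} (a : R) (x : Fin l → R) : Matrix (Fin l) (Fin l) R :=
  Matrix.of fun i j => (if i ≤ j then 1 else a) * x (j - i)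

/-- the norm form -/
def nForm {R : Type*} [CommRing R] {l : ℕ} (a : R) (x : Fin l → R) : R := (nMat a x).det

theorem nMat_map {R S : Type*} [CommRing R] [CommRing S] (f : R →+* S) {l : ℕ} (a : R)
    (x : Fin l → R) : (nMat a x).map f = nMat (f a) (fun k => f (x k)) := by
  ext i j
  simp only [nMat, Matrix.map_apply, Matrix.of_apply, map_mul]
  split_ifs <;> simp

theorem nForm_map {R S : Type*} [CommRing R] [CommRing S] (f : R →+* S) {l : ℕ} (a : R)
    (x : Fin l → R) : f (nForm a x) = nForm (f a) (fun k => f (x k)) := by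
  unfold nForm
  rw [RingHom.map_det, ← nMat_map]
  rfl

end Pool.Agent.Helper65.CL
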