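import Pool.Agent.Helper65.CL.Glue2
import Pool.Agent.Helper65.CL.Base
import Pool.Agent.Helper35.CB.SieveGTwo

/-!
# CB for symbols of prime degrees: `SieveG` for polynomials of degree at most two
-/

set_option autoImplicit false

namespace Pool.Agent.Helper65.CL

open NumberField Polynomial Finset Pool.Agent.Helper4.CB Pool.Agent.Helper25.CB
  Pool.Agent.Helper35.CB
open Pool.Agent.Helper14.CB (CofI CofI.cofac)

theorem sieveG_two (Λ : Finset ℕ) (hΛ : ∀ l ∈ Λ, l.Prime) (K : Type) [Field K] [NumberField K] :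
    SieveG Λ K 2 := by
  intro D J0
  obtain ⟨J1, hJ1⟩ := exists_base K Λ hΛ D 2 (by norm_num)
  obtain ⟨J, Y, hJ, hJJ, hY, hlY, h⟩ := glue_two K Λ hΛ D (J0 + J1)
  refine ⟨J, Y, by omega, by omega, fun S hSD hS m1 hm1 hYm _ _ Z => ?_⟩
  have h1m : 1 < m1 := lt_of_lt_of_le (by omega) (Nat.le_of_dvd (Nat.pos_of_ne_zero hm1) hYm)
  obtain ⟨k, r, α, hk, hr, -, hbase⟩ := hJ1 J (by omega) S hSD
    (fun P hP => ⟨(hS P hP).1, (hS P hP).2.1, (hS P hP).2.2.1, (hS P hP).2.2.2.2⟩) m1 h1m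
    (fun l hl => (hlY l hl).trans hYm)
  obtain ⟨u, v, h1, h2, h3, h4, -, h6, h7⟩ := h S hSD
    (fun P hP => ⟨(hS P hP).1, (hS P hP).2.1, (hS P hP).2.2.1, (hS P hP).2.2.2.1⟩)
    (m1 ^ k) r 1 (pow_ne_zero _ hm1) (hYm.trans (dvd_pow_self _ (by omega)))
    (hr.pow_right k) one_ne_zero
    (fun q hq => q.1.isPrime.ne_top ((Ideal.eq_top_iff_one _).2 hq))
    (by
      intro u v hu hv l hl
      obtain ⟨hb1, hb2⟩ := hbase u v hu hv l hl
      refine ⟨hb1, fun P hP => ?_⟩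
      rw [one_mul]
      exact (hb2 P hP).cofac) Z
  refine ⟨k, r, u, v, hk, hr, h1, h2, h4, ?_, ?_⟩
  · have h8 : ((1 : 𝓞 K) : K) = 1 := rfl
    rwa [h8, one_mul] at h6
  · intro p hp hmp
    obtain ⟨h9, h10⟩ := h7 p hp (fun h => hmp ((pow_mem_iff hk p).1 h))
    refine ⟨h9, fun P hP => ?_⟩
    have := h10 P hP
    rwa [one_mul] at this

end Pool.Agent.Helper65.CL
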